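import Mathlib
import Pool.Agent.Helper372.SuperAt
import Pool.Agent.Y586.SA.Gen
import Pool.Agent.Y586.SA.Split

/-!
# Boolean algebras isomorphic to all their full-size subalgebras: all infinite cardinals
-/

set_option autoImplicit false

open Cardinal

universe u

namespace Pool.Agent.Results.MP_8a899a_lc.FewSuperatomicElements

/-- `B` is superatomic: every homomorphic image of `B` is atomic. -/
def Superatomic (B : Type u) [BooleanAlgebra B] : Prop :=
  ∀ (C : Type u) [BooleanAlgebra C] (f : BoundedLatticeHom B C), Function.Surjective f →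
    IsAtomic C

/-- The element `b` is superatomic: some subalgebra which consists of the elements below `b` and of
their complements (it is the product of the algebra of the elements below `b` and the two element
algebra) is superatomic. -/
def SuperatomicElement {B : Type u} [BooleanAlgebra B] (b : B) : Prop :=
  ∃ A : BooleanSubalgebra B, (∀ x : B, x ∈ A ↔ x ≤ b ∨ xᶜ ≤ b) ∧ Superatomic A

/-- Let `κ` be any infinite cardinal and let `B` be a Boolean algebra of cardinality `κ` which is
isomorphic to all its subalgebras of cardinality `κ`. (1) If `κ` is regular or a strong limit, or if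
the number of the superatomic elements of `B` is smaller than the cofinality of `κ`, or if
`2` to this number is smaller than `κ`, then `B` is superatomic. (2) If `B` is not superatomic, then
for every `b` exactly one of `b` and its complement has `κ` elements below it (so `B` is not the
product of two algebras of cardinality `κ`). -/
theorem result (κ : Cardinal.{u}) (hκ : ℵ₀ ≤ κ) (B : Type u) [BooleanAlgebra B] (hB : #B = κ)
    (hstar : ∀ A : BooleanSubalgebra B, #A = κ → Nonempty (A ≃o B)) :
    ((κ.IsRegular ∨ κ.IsStrongLimit ∨ #{b : B // SuperatomicElement b} < κ.ord.cof ∨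
      (2 : Cardinal.{u}) ^ #{b : B // SuperatomicElement b} < κ) → Superatomic B) ∧
    (¬ Superatomic B → ∀ b : B, #{x : B // x ≤ b} = κ ↔ #{x : B // x ≤ bᶜ} < κ) := by
  have hle : #{b : B | Pool.Agent.Helper372.SuperAt.Sc b} ≤ #{b : B // SuperatomicElement b} := by
    refine Cardinal.mk_le_mk_of_subset fun b hb => ?_
    refine ⟨Pool.Agent.Y586.SA.below b, fun x => Pool.Agent.Y586.SA.mem_below, ?_⟩
    intro C _ f hf
    exact Pool.Agent.Helper372.SuperAt.isAtomic_of_sc_top (Pool.Agent.Y586.SA.sc_top_below hb) f hf
  refine ⟨fun h C _ f hf => ?_, fun hns b => ⟨fun h1 => ?_, fun h1 => ?_⟩⟩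
  · refine Pool.Agent.Helper372.SuperAt.isAtomic_of_sc_top ?_ f hf
    rcases h with h | h | h | h
    · exact Pool.Agent.Helper372.SuperAt.sc_top_of_regular h hB hstar
    · exact Pool.Agent.Helper372.SuperAt.sc_top_of_strongLimit h.aleph0_le
        (fun μ hμ => h.isStrongPrelimit hμ) hB hstar
    · exact Pool.Agent.Y586.SA.sc_top_of_cof hκ (hle.trans_lt h) hB hstar
    · exact Pool.Agent.Y586.SA.sc_top_of_pow hκ
        ((Cardinal.power_le_power_left two_ne_zero hle).trans_lt h) hB hstar
  · refine lt_of_le_of_ne (hB ▸ Cardinal.mk_set_le _) fun h2 => hns ?_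
    intro C _ f hf
    exact Pool.Agent.Helper372.SuperAt.isAtomic_of_sc_top
      (Pool.Agent.Y586.SA.sc_top_of_split hκ hB hstar h1 h2) f hf
  · rcases Pool.Agent.Helper372.SuperAt.mk_iic_or hκ hB b with h | h
    · exact h
    · exact absurd h h1.ne

end Pool.Agent.Results.MP_8a899a_lc.FewSuperatomicElements
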